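import Pool.Agent.H21.L.R_seed8.W401.Cheb.Mean0

/-! Group theory and torsors. -/

set_option autoImplicit false
set_option linter.unusedSectionVars false

namespace Pool.Agent.W401.Cheb

open NumberField Filter Topology Finset

/-- counting in fibres -/
lemma card_fib {A B : Type*} [Group A] [Group B] (f : A →* B) (P : B → Prop)
    (h : ∀ b, P b → ∃ a, f a = b) :
    Nat.card {a : A // P (f a)} = Nat.card f.ker * Nat.card {b : B // P b} := by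
  choose s hs using h
  rw [← Nat.card_prod]
  refine Nat.card_congr
    { toFun := fun a => (⟨(s (f a.1) a.2)⁻¹ * a.1, by
        rw [MonoidHom.mem_ker, map_mul, map_inv, hs, inv_mul_cancel]⟩, ⟨f a.1, a.2⟩)
      invFun := fun x => ⟨s x.2.1 x.2.2 * x.1.1, by
        have h1 : f x.1.1 = 1 := x.1.2
        rw [map_mul, hs, h1, mul_one]; exact x.2.2⟩
      left_inv := fun a => by
        apply Subtype.ext; simp
      right_inv := ?_ }
  rintro ⟨⟨a, ha⟩, ⟨b, hb⟩⟩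
  have h1 : f a = 1 := ha
  have h2 : f (s b hb * a) = b := by rw [map_mul, hs, h1, mul_one]
  apply Prod.ext
  · apply Subtype.ext
    simp only
    have : s (f (s b hb * a)) (h2.symm ▸ hb) = s b hb := by congr 1
    rw [this]; simp
  · apply Subtype.ext
    exact h2

/-- the torsor property at `p` -/
def TorAt (L : Type) [Field L] [NumberField L] [IsGalois ℚ L] (p : ℕ) [Fact p.Prime] : Prop :=
  Nat.card (𝓞 L →+* AlgebraicClosure (ZMod p)) = Nat.card Gal(L/ℚ) ∧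
    (∀ φ φ' : 𝓞 L →+* AlgebraicClosure (ZMod p), ∃! σ : Gal(L/ℚ), ∀ x, φ' x = φ (σ • x)) ∧
    (∀ H : Subgroup Gal(L/ℚ),
      Nat.card H * Nat.card (𝓞 (IntermediateField.fixedField H) →+* ZMod p) =
      Nat.card {φ : 𝓞 L →+* AlgebraicClosure (ZMod p) // ∃ h ∈ H, HasFrob p φ h})

section
variable {L : Type} [Field L] [NumberField L] [IsGalois ℚ L] {p : ℕ} [Fact p.Prime]

/-- translate of a homomorphism -/
noncomputable def tw {k : Type} [Field k] (φ : 𝓞 L →+* k) (σ : Gal(L/ℚ)) : 𝓞 L →+* k :=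
  φ.comp (MulSemiringAction.toRingHom Gal(L/ℚ) (𝓞 L) σ)

@[simp] lemma tw_apply {k : Type} [Field k] (φ : 𝓞 L →+* k) (σ : Gal(L/ℚ)) (x : 𝓞 L) :
    tw φ σ x = φ (σ • x) := rfl

lemma exists_frob (h : TorAt L p) (φ : 𝓞 L →+* AlgebraicClosure (ZMod p)) :
    ∃ σ, HasFrob p φ σ := by
  obtain ⟨σ, hσ, _⟩ := h.2.1 φ ((frobenius (AlgebraicClosure (ZMod p)) p).comp φ)
  exact ⟨σ, fun x => (hσ x).symm⟩

lemma tw_inj (h : TorAt L p) {φ : 𝓞 L →+* AlgebraicClosure (ZMod p)} {σ τ : Gal(L/ℚ)}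
    (h2 : ∀ x, φ (σ • x) = φ (τ • x)) : σ = τ := by
  obtain ⟨ρ, _, hu⟩ := h.2.1 φ (tw φ τ)
  rw [hu σ fun x => (h2 x).symm, hu τ fun x => rfl]

lemma frob_unique (h : TorAt L p) {φ : 𝓞 L →+* AlgebraicClosure (ZMod p)} {σ τ : Gal(L/ℚ)}
    (h1 : HasFrob p φ σ) (h2 : HasFrob p φ τ) : σ = τ :=
  tw_inj h fun x => (h1 x).trans (h2 x).symm

lemma nonempty_hom (h : TorAt L p) : Nonempty (𝓞 L →+* AlgebraicClosure (ZMod p)) := by
  have h1 := h.1
  have h2 : 0 < Nat.card (𝓞 L →+* AlgebraicClosure (ZMod p)) := by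
    rw [h1]; exact Nat.card_pos
  exact (Nat.card_pos_iff.mp h2).1

lemma finite_hom (h : TorAt L p) : Finite (𝓞 L →+* AlgebraicClosure (ZMod p)) := by
  have h1 := h.1
  have h2 : 0 < Nat.card (𝓞 L →+* AlgebraicClosure (ZMod p)) := by
    rw [h1]; exact Nat.card_pos
  exact (Nat.card_pos_iff.mp h2).2

/-- the torsor as a bijection -/
noncomputable def torE (h : TorAt L p) (φ : 𝓞 L →+* AlgebraicClosure (ZMod p)) :
    Gal(L/ℚ) ≃ (𝓞 L →+* AlgebraicClosure (ZMod p)) :=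
  Equiv.ofBijective (tw φ) ⟨fun σ τ h2 => tw_inj h (φ := φ) fun x => congrArg (fun f => f x) h2,
    fun φ' => by
      obtain ⟨σ, hσ, _⟩ := h.2.1 φ φ'
      exact ⟨σ, RingHom.ext fun x => (hσ x).symm⟩⟩

lemma hasFrob_tw (h : TorAt L p) {φ : 𝓞 L →+* AlgebraicClosure (ZMod p)} {τ : Gal(L/ℚ)}
    (hτ : HasFrob p φ τ) (σ ρ : Gal(L/ℚ)) : HasFrob p (tw φ σ) ρ ↔ ρ = σ⁻¹ * τ * σ := by
  constructor
  · intro h1
    have h2 : σ * ρ = τ * σ := by
      refine tw_inj h (φ := φ) fun x => ?_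
      rw [mul_smul, mul_smul, hτ]
      exact h1 x
    rw [mul_assoc, ← h2, ← mul_assoc, inv_mul_cancel, one_mul]
  · rintro rfl
    intro x
    simp only [tw_apply]
    rw [smul_smul, show σ * (σ⁻¹ * τ * σ) = τ * σ by group, mul_smul, hτ]

lemma card_frob (h : TorAt L p) {φ : 𝓞 L →+* AlgebraicClosure (ZMod p)} {τ : Gal(L/ℚ)}
    (hτ : HasFrob p φ τ) (P : Gal(L/ℚ) → Prop) :
    Nat.card {φ : 𝓞 L →+* AlgebraicClosure (ZMod p) // ∃ ρ, HasFrob p φ ρ ∧ P ρ} =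
      Nat.card {σ : Gal(L/ℚ) // P (σ⁻¹ * τ * σ)} := by
  symm
  refine Nat.card_congr ((torE h φ).subtypeEquiv fun σ => ?_)
  constructor
  · intro h1
    exact ⟨_, (hasFrob_tw h hτ σ _).mpr rfl, h1⟩
  · rintro ⟨ρ, h1, h2⟩
    rw [(hasFrob_tw h hτ σ ρ).mp h1] at h2
    exact h2

lemma xp_eq (h : TorAt L p) {φ : 𝓞 L →+* AlgebraicClosure (ZMod p)} {τ : Gal(L/ℚ)}
    (hτ : HasFrob p φ τ) (g : Gal(L/ℚ)) :
    xp L g p = Nat.card {σ : Gal(L/ℚ) // σ⁻¹ * τ * σ = g} := by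
  have hp : p.Prime := Fact.out
  unfold xp
  rw [dif_pos hp, ← card_frob h hτ fun ρ => ρ = g]
  refine Nat.card_congr (Equiv.subtypeEquivRight fun ψ => ?_)
  constructor
  · intro h1
    exact ⟨g, h1, rfl⟩
  · rintro ⟨ρ, h1, rfl⟩
    exact h1

lemma sum_xp (h : TorAt L p) : ∑ g : Gal(L/ℚ), xp L g p = Nat.card Gal(L/ℚ) := by
  classical
  obtain ⟨φ⟩ := nonempty_hom h
  obtain ⟨τ, hτ⟩ := exists_frob h φ
  simp_rw [xp_eq h hτ]
  rw [Nat.card_eq_fintype_card, ← Finset.card_univ]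
  rw [Finset.card_eq_sum_card_fiberwise (f := fun σ : Gal(L/ℚ) => σ⁻¹ * τ * σ) (t := univ)
    (fun _ _ => by simp)]
  refine sum_congr rfl fun g _ => ?_
  rw [Nat.card_eq_fintype_card, Fintype.card_subtype]

lemma card_fixed (h : TorAt L p) {φ : 𝓞 L →+* AlgebraicClosure (ZMod p)} {τ : Gal(L/ℚ)}
    (hτ : HasFrob p φ τ) (H : Subgroup Gal(L/ℚ)) :
    Nat.card H * Nat.card (𝓞 (IntermediateField.fixedField H) →+* ZMod p) =
      Nat.card {σ : Gal(L/ℚ) // σ⁻¹ * τ * σ ∈ H} := by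
  rw [h.2.2 H, ← card_frob h hτ fun ρ => ρ ∈ H]
  refine Nat.card_congr (Equiv.subtypeEquivRight fun ψ => ?_)
  exact ⟨fun ⟨h, h1, h2⟩ => ⟨h, h2, h1⟩, fun ⟨h, h1, h2⟩ => ⟨h, h2, h1⟩⟩

end

section
variable {L L' : Type} [Field L] [NumberField L] [IsGalois ℚ L] [Field L'] [NumberField L']
  [IsGalois ℚ L'] [Algebra L L'] {p : ℕ} [Fact p.Prime]

/-- restriction of homomorphisms -/
noncomputable def rs {k : Type} [Field k] (φ : 𝓞 L' →+* k) : 𝓞 L →+* k :=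
  φ.comp (algebraMap (𝓞 L) (𝓞 L'))

lemma hasFrob_rs {k : Type} [Field k] {φ : 𝓞 L' →+* k} {σ : Gal(L'/ℚ)}
    (res : Gal(L'/ℚ) →* Gal(L/ℚ))
    (hres : ∀ (σ : Gal(L'/ℚ)) (x : L), algebraMap L L' (res σ x) = σ (algebraMap L L' x))
    (h : HasFrob p φ σ) : HasFrob p (rs φ : 𝓞 L →+* k) (res σ) := by
  intro x
  have h1 : algebraMap (𝓞 L) (𝓞 L') (res σ • x) = σ • algebraMap (𝓞 L) (𝓞 L') x := by
    apply RingOfIntegers.coe_injective
    exact hres σ (x : L)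
  unfold rs
  rw [RingHom.comp_apply, h1, h, RingHom.comp_apply]

end

end Pool.Agent.W401.Cheb
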